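import Pool.Agent.MP_c69980_ag.H43.Spec4

/-!
Minimum modulus on a zero-free annulus, and the lemma on the logarithmic derivative.
-/

set_option autoImplicit false

namespace Pool.Agent.MP_c69980_ag.H43

open H60 Finset Filter Topology Metric Real

/-- All the sizes are bounded by `T`. -/
structure MlT (R r η T : ℝ) (f : ℂ → ℂ) : Prop where
  r1 : r ≤ T
  η1 : 1 ≤ η * T
  up : ∀ z, ‖z‖ ≤ r + η → ‖f z‖ ≤ exp T
  nz : NZ R f
  lo : -T ≤ av f 1
  ann : ∀ z, |‖z‖ - r| < T⁻¹ → f z ≠ 0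

lemma MlT.ne {R r η T : ℝ} {f : ℂ → ℂ} (h : MlT R r η T f) (h1 : 1 ≤ r) {z : ℂ} (hz : ‖z‖ = r) :
    f z ≠ 0 := h.ann z (by rw [hz, sub_self, abs_zero, inv_pos]; linarith [h.r1])

lemma MlT.min {R r η T : ℝ} {f : ℂ → ℂ} (h : MlT R r η T f) (hf : Hol R f) (h1 : 1 ≤ r)
    (h2 : 0 < η) (h3 : η ≤ 1) (h4 : r + η < R) {w : ℂ} (hw : ‖w‖ = r) :
    exp (-(42 * T ^ 5)) ≤ ‖f w‖ := by
  obtain ⟨N, a, g, -, hg, he, hz⟩ := factor hf h.nz h4
  have t0 := h.r1
  have t1 : 1 ≤ T := h1.trans t0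
  have t2 := h.η1
  have hw0 := h.ne h1 hw
  have hw' : ‖w‖ < r + η / 2 := by linarith
  rw [← le_log_iff_exp_le (norm_pos_iff.2 hw0)]
  obtain ⟨n1, e1⟩ := log_fac he hw0
  have e2 := (pk_bounds hw' (hf.int (by linarith) (by linarith)) fun z hz =>
    log_le_of (by linarith) (norm_nonneg _) (h.up z (by linarith))).2
  rw [pj hg he hz (by linarith) h4 hw'] at e2
  have e4 := av_le hf h.nz (by linarith) h4 fun z hz => h.up z hz.le
  have e5 := av_mono hf h.nz one_pos (by linarith : 1 ≤ r + η / 2) (by linarith)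
  have e6 := av_mono hf h.nz (by linarith) (by linarith : r + η / 2 ≤ r + η) h4
  have e7 := count_le hg he hz (ρ := r + η / 2) (ρ' := r + η) (by linarith) (by linarith) le_rfl h4
  set I := univ.filter fun i => ‖a i‖ ≤ r + η / 2 with hI
  have q : T ≤ η * T ^ 2 := by nlinarith
  have e8 : (r + η / 2 + ‖w‖) / (r + η / 2 - ‖w‖) ≤ 6 * T ^ 2 := by
    rw [div_le_iff₀ (by linarith), hw]; linarith
  have e9 := mul_le_mul e8 (show T - av f (r + η / 2) ≤ 2 * T by linarith [h.lo]) (by linarith)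
    (by positivity)
  have e3 : 1 ≤ 4 * T ^ 2 * log ((r + η) / (r + η / 2)) := by
    rw [← div_le_iff₀' (by positivity)]
    refine le_trans ?_ (one_sub_inv_le_log_of_pos (by positivity))
    rw [inv_div, one_sub_div (by positivity), div_le_div_iff₀ (by positivity) (by positivity)]
    linarith
  have e11 : (I.card : ℝ) ≤ 8 * T ^ 3 := by
    have := mul_le_mul_of_nonneg_left (e7.trans (show _ ≤ 2 * T by linarith [h.lo]))
      (show 0 ≤ 4 * T ^ 2 by positivity)
    linarith [mul_le_mul_of_nonneg_left e3 (Nat.cast_nonneg (α := ℝ) I.card)]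
  have e10 : ∑ i, log (hh (r + η / 2) (a i) w) - ∑ i, log ‖w - a i‖ ≤ ∑ _i ∈ I, 3 * T ^ 2 := by
    rw [← sum_sub_distrib, hI, sum_filter]
    refine sum_le_sum fun i _ => ?_
    split_ifs with hi
    · have p0 := norm_pos_iff.2 (n1 i)
      have p1 : T⁻¹ ≤ ‖w - a i‖ := by
        refine le_trans (not_lt.1 fun e => h.ann _ e ?_) (norm_sub_rev w _ ▸ hw ▸
          abs_norm_sub_norm_le (a i) w)
        rw [he, prod_eq_zero (mem_univ i) (sub_self _), zero_mul]
      have p2 : hh (r + η / 2) (a i) w ≤ 2 * (r + η / 2) := by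
        rw [hh, if_pos hi, norm_div, Complex.norm_real, Real.norm_of_nonneg (by linarith),
          div_le_iff₀ (by linarith)]
        refine (norm_sub_le _ _).trans ?_
        rw [norm_mul, Complex.norm_conj, norm_pow, Complex.norm_real,
          Real.norm_of_nonneg (by linarith)]
        nlinarith [mul_le_mul hi hw'.le (norm_nonneg _) (by linarith)]
      have p3 := p0.trans_le (le_hh (a i) hw')
      rw [← log_div p3.ne' p0.ne']
      refine (log_le_self (by positivity)).trans ?_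
      rw [div_le_iff₀ p0]
      calc _ ≤ 3 * T := by linarith
        _ = 3 * T ^ 2 * T⁻¹ := by field_simp
        _ ≤ _ := by gcongr
    · rw [hh, if_neg hi, sub_self]
  rw [sum_const, nsmul_eq_mul] at e10
  have e12 := mul_le_mul_of_nonneg_right e11 (show 0 ≤ 3 * T ^ 2 by positivity)
  have e13 : T ^ 3 ≤ T ^ 5 := pow_le_pow_right₀ t1 (by norm_num)
  have e14 : 0 ≤ T ^ 5 := by positivity
  unfold av at *
  linarith

variable {t a M : ℕ} {w : Fin M → Option (Fin t)} {Θ : Pt t a → Fin M → ℂ} {k : Subfield ℂ}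
  (A : AP w Θ k)

lemma mlT {x : A.V} (h : x ∉ A.P) :
    ∃ b : ℕ, ∀ᶠ n in A.U, MlT (A.R n) (A.r n) (A.η n) (A.τ n ^ b) (x.1 n) := by
  obtain ⟨b1, h1⟩ := A.poly
  obtain ⟨b2, h2⟩ := A.up _ x.2
  obtain ⟨b3, h3⟩ := A.ann x h
  refine ⟨b1 + b2 + b3 + 1, ?_⟩
  filter_upwards [h1, h2, h3, A.big x h 1 one_pos] with n c1 c2 c3 c4
  obtain ⟨-, d1, -, -, d2⟩ := A.num n
  have m : ∀ b, b ≤ b1 + b2 + b3 + 1 → A.τ n ^ b ≤ A.τ n ^ (b1 + b2 + b3 + 1) :=
    fun _ => pow_le_pow_right₀ d2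
  exact ⟨c1.1.trans (m _ (by omega)), c1.2.trans (mul_le_mul_of_nonneg_left (m _ (by omega)) d1.le),
    fun z hz => (c2 z hz).trans (exp_le_exp.2 (m _ (by omega))), c4.1,
    by linarith [c4.2, m 1 (by omega)],
    fun z hz => c3 z (hz.trans_le (inv_anti₀ (by positivity) (m _ (by omega))))⟩

lemma mlLld (x : A.V) (h : x ∉ A.P) : Sm A.U A.r A.τ fun n z => ‖(A.D x).1 n z / x.1 n z‖ := by
  obtain ⟨b, hb⟩ := mlT A h
  intro ε hε
  filter_upwards [hb, log_small A.τtop (log 3 + 6) (7 * b) hε] with n c1 c2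
  obtain ⟨d0, d1, -, d3, d2⟩ := A.num n
  have sp := sph_sub (A.r0 n) (A.rR n)
  have t1 := d0.trans c1.r1
  have t2 := c1.η1
  have t3 : (A.τ n ^ b)⁻¹ ≤ A.η n := by rwa [inv_le_iff_one_le_mul₀ (by linarith)]
  refine ⟨(((A.hol _ (A.D x).2 n).continuousOn.mono sp).div ((A.hol _ x.2 n).continuousOn.mono sp)
    fun z hz => c1.ne d0 (by simpa [abs_of_pos (A.r0 n)] using hz)).norm, ?_⟩
  have := lld_avg (A.hol _ x.2 n) (A.r0 n) (by positivity) (by linarith) c1.ann
    (fun z hz => c1.up z (by linarith)) t1 (c := 3) (by norm_num) (by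
      field_simp
      exact one_le_pow₀ t1)
    (by nlinarith [c1.lo, av_mono (A.hol _ x.2 n) c1.nz one_pos d0 (A.rR n)]) 1
  rw [log_pow] at this
  refine (circleAverage_congr_sphere fun z hz => ?_).trans_le (this.trans ?_)
  · simp only [A.D_coe, dd_in _ (sp hz), iteratedDeriv_one]
  · norm_num at c2 ⊢
    linarith

theorem sMl : SMl := by
  refine fun t a M w Θ k A => ⟨fun x h => ?_, mlLld A, fun x hx => ?_⟩
  · obtain ⟨b, hb⟩ := mlT A h
    refine ⟨b * 5 + 1, ?_⟩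
    filter_upwards [hb, A.τtop.eventually_ge_atTop 42] with n c1 c2 z hz
    obtain ⟨d0, d1, d4, d3, d2⟩ := A.num n
    refine le_trans (exp_le_exp.2 (neg_le_neg ?_)) (c1.min (A.hol _ x.2 n) d0 d1 d4 d3 hz)
    rw [pow_succ' _ (b * 5), pow_mul]
    gcongr
  · by_cases h : x ∈ A.P
    · exact A.PS (A.DP h)
    obtain ⟨b, hb⟩ := mlT A h
    intro ε hε
    filter_upwards [hb, Sm.mul A.τtop (A.mem_S.1 hx) (mlLld A x h) ε hε] with n c1 c2
    refine ⟨A.cont _ n, (circleAverage_congr_sphere fun z hz => ?_).trans_le c2.2⟩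
    simp only [Pi.mul_apply]
    rw [← norm_mul, mul_div_cancel₀ _ (c1.ne (A.num n).1 (by simpa [abs_of_pos (A.r0 n)] using hz))]

end Pool.Agent.MP_c69980_ag.H43
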