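import Pool.Agent.MP_c69980_ag.H43.Spec5

/-!
An echelon basis of the derivations of the function field.
-/

set_option autoImplicit false

namespace Pool.Agent.MP_c69980_ag.H43

open MvPolynomial H60 Finset

variable {t a M : ℕ} {K : Type} [Field K] [Algebra ℂ K] {k : Subfield ℂ}

lemma tankAeval (ι : K →ₐ[k] ℂ) {σ : Type} {P : MvPolynomial σ ℂ} (h : Cf k P) (y : σ → K) :
    ι (aeval y P) = eval (fun i => ι (y i)) P := by
  obtain ⟨P', rfl⟩ := cf_iff.1 h
  rw [eval_map_sub, show aeval y (map k.subtype P') = aeval y P' from aeval_map_algebraMap ℂ y P']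
  exact congrArg (fun f => f P') (comp_aeval (f := y) ι)

lemma tankVf (ι : K →ₐ[k] ℂ) {P : Fin (t + a) → CI M t → CP M t} (h : ∀ i x, Cf k (P i x))
    (g : Fin (t + a) → K) (y : CI M t → K) (x : CI M t) :
    ι (vf P g y x) = vf P (fun i => ι (g i)) (fun i => ι (y i)) x := by
  simp only [vf, map_sum, map_mul, tankAeval ι (h _ _)]
  rfl

lemma tankSum {m : ℕ} (c : Fin m → K) (E : Fin m → Derivation ℂ K K) (x : K) :
    (∑ l, c l • E l) x = ∑ l, c l * E l x := by
  have := congrFun (map_sum Derivation.coeFnAddMonoidHom (fun l => c l • E l) univ) x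
  rwa [Finset.sum_apply] at this

lemma tankVfSum {m : ℕ} (P : Fin (t + a) → CI M t → CP M t) (c : Fin m → K)
    (g : Fin m → Fin (t + a) → K) (y : CI M t → K) (x : CI M t) :
    vf P (∑ l, c l • g l) y x = ∑ l, c l * vf P (g l) y x := by
  simp only [vf, Finset.sum_apply, Pi.smul_apply, smul_eq_mul, sum_mul, mul_sum, mul_assoc]
  exact sum_comm

lemma tankK0 {u : Fin M → K} {x : K} (h : x ∈ rat u) : x ∈ K0 u :=
  IntermediateField.subset_adjoin _ _ h

lemma tankCard {u : Fin M → K} (h : Algebra.IsAlgebraic (K0 u) K) :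
    Cardinal.mk K ≤ Cardinal.continuum :=
  (Algebra.IsAlgebraic.cardinalMk_le_max (K0 u) K).trans (max_le
    ((IntermediateField.cardinalMk_adjoin_le _ _).trans (max_le (max_le Cardinal.mk_complex.le
      ((rat_fin u).lt_aleph0.le.trans Cardinal.aleph0_le_continuum)) Cardinal.aleph0_le_continuum))
    Cardinal.aleph0_le_continuum)

/-- A derivation that kills the chart coordinates kills `K0 u`. -/
lemma tankKill {w : Fin M → Option (Fin t)} {β : Cht M t} {u : Fin M → K} (hβ : Ch w β u)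
    {E : Derivation ℂ K K} (h : ∀ x, E (co β u x) = 0) {x : K} (hx : x ∈ K0 u) : E x = 0 := by
  induction hx using IntermediateField.adjoin_induction with
  | mem x hx =>
    obtain ⟨c, b, rfl⟩ := hx
    simp [div_eq_co hβ, Derivation.leibniz_div, h]
  | algebraMap c => exact E.map_algebraMap c
  | add x y _ _ a b => rw [map_add, a, b, add_zero]
  | inv x _ a => simp [Derivation.leibniz_inv, a]
  | mul x y _ _ a b => simp [a, b]

lemma tankBasis {u : Fin M → K} (h : Algebra.IsAlgebraic (K0 u) K) {m : ℕ}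
    (hm : Algebra.trdeg ℂ K = m) : ∃ (y : Fin m → K) (E : Fin m → Derivation ℂ K K),
      (∀ i, y i ∈ K0 u) ∧ (∀ l i, E l (y i) = if l = i then 1 else 0) ∧
      ∀ l, ∀ x ∈ K0 u, E l x ∈ K0 u := by
  obtain ⟨σ, y, hy⟩ := exists_isTranscendenceBasis' ℂ (K0 u)
  obtain ⟨e⟩ := Cardinal.mk_eq_nat_iff.1 ((hy.algebraMap_comp (A := K)).cardinalMk_eq_trdeg.trans hm)
  have h0 := hy.comp_equiv e.symm
  choose E hE using fun l => der_exists (M := K) (h0.algebraMap_comp (A := K))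
    fun i => if l = i then 1 else 0
  refine ⟨_, E, fun i => (y (e.symm i)).2, hE, fun l x hx => ?_⟩
  obtain ⟨E₀, hE₀⟩ := der_exists (M := K0 u) h0 fun i => if l = i then 1 else 0
  have : (E l).compAlgebraMap (K0 u) = (Algebra.linearMap (K0 u) K).compDer E₀ :=
    der_ext h0 fun i => (hE l i).trans (by
      show _ = algebraMap (K0 u) K (E₀ _)
      rw [hE₀]
      split_ifs <;> simp)
  exact (show E l x = E₀ ⟨x, hx⟩ from DFunLike.congr_fun this ⟨x, hx⟩) ▸ (E₀ ⟨x, hx⟩).2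

theorem sTank (h1 : SEmb) (h2 : SExt) (h3 : SLin) : STank := by
  intro t a M n w Θ PP K _ _ U z u m hG h hm
  obtain ⟨k, k0, g⟩ := hG.exists
  obtain ⟨ι, hι⟩ := h1.1 k k0 K (tankCard h.hf)
  obtain ⟨β₀, hβ₀⟩ := h.ch
  obtain ⟨p, l, e⟩ := g.clh (fun c => ι (u c))
    (fun o => ⟨β₀ o, (hβ₀ o).1, (map_ne_zero ι).2 (hβ₀ o).2⟩)
    fun F d a b c => by rw [← tankAeval ι b, h.hu F d a c, map_zero]
  have e' : ∀ c, ι (u c) = l * Θ p c := congrFun e
  have ch : ∀ β, Ch w β u → Ch w β (Θ p) ∧ (fun x => ι (co β u x)) = co β (Θ p) := fun β hβ => by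
    have := fun o => mul_ne_zero_iff.1 (e' _ ▸ (map_ne_zero ι).2 (hβ o).2)
    exact ⟨fun o => ⟨(hβ o).1, (this o).2⟩, funext fun x => by
      simp only [co]
      rw [map_div₀, e', e', mul_div_mul_left _ _ (this none).1]⟩
  have imm : ∀ v, (∀ x, vf (PP β₀) v (co β₀ u) x = 0) → v = 0 := fun v hv => funext fun i =>
    (map_eq_zero ι).1 (congrFun (g.imm β₀ p _ (ch _ hβ₀).1 fun x => by
      rw [← (ch _ hβ₀).2, ← tankVf ι (g.cf β₀), hv, map_zero]) i)
  have ex : ∀ E : Derivation ℂ K K, (∀ x ∈ K0 u, E x ∈ K0 u) → ∃ v : Fin (t + a) → K,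
      (∀ i, v i ∈ K0 u) ∧ ∀ β, Ch w β u → ∀ x, E (co β u x) = vf (PP β) v (co β u) x := by
    intro E hE
    obtain ⟨D, hD⟩ := h2.1 K ι ((ι : K →+ ℂ).comp (E : K →ₗ[ℂ] K)) (fun x y => by simp)
      fun x hx => by simp [(map_eq_zero ι).1 hx]
    have hD' : ∀ x, D (ι x) = ι (E x) := hD
    obtain ⟨v, hv⟩ := g.ex D p fun c hc => by
      rw [show c = ι (algebraMap ℂ K c) from (ι.commutes ⟨c, hc⟩).symm, hD', E.map_algebraMap,
        map_zero]
    have hv' : ∀ β, Ch w β u → ∀ x, ι (E (co β u x)) = vf (PP β) v (fun x => ι (co β u x)) x :=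
      fun β hβ x => by
        rw [← hD', (ch β hβ).2, ← (g.tan_iff (ch β hβ).1).1 hv, ← (ch β hβ).2]
    have := (h3 ℂ ((K0 u).toSubfield.map (ι : K →+* ℂ))).1 _ _
      (fun x i => aeval (fun x => ι (co β₀ u x)) (PP β₀ i x)) _ v (fun x i => ⟨aeval (co β₀ u)
        (PP β₀ i x), (K0 u).toSubalgebra.mem_toSubring.2 ?_, tankAeval ι (g.cf _ _ _) _⟩)
      (fun x => ⟨_, hE _ (tankK0 (co_mem β₀ u x)), rfl⟩) (fun x => (hv' β₀ hβ₀ x).symm)
      fun v' hv' => g.imm β₀ p v' (ch _ hβ₀).1 fun x => (ch _ hβ₀).2 ▸ hv' x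
    · choose v' a b using this
      refine ⟨v', a, fun β hβ x => hι ?_⟩
      rw [hv' β hβ, tankVf ι (g.cf β)]
      exact congrArg (fun v => vf _ v _ x) (funext b).symm
    · exact Algebra.adjoin_le (S := (K0 u).toSubalgebra)
        (Set.range_subset_iff.2 fun x => tankK0 (co_mem β₀ u x))
        (Algebra.adjoin_range_eq_range_aeval ℂ (co β₀ u) ▸ ⟨_, rfl⟩)
  obtain ⟨y, E, y0, y1, y2⟩ := tankBasis h.hf hm
  choose v v0 v1 using fun l => ex (E l) (y2 l)
  have act : ∀ c : Fin m → K, ∀ β, Ch w β u → ∀ x,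
      (∑ l, c l • E l) (co β u x) = vf (PP β) (∑ l, c l • v l) (co β u) x := fun c β hβ x => by
    simp only [tankSum, tankVfSum, v1 _ β hβ]
  obtain ⟨J, B, b0, b1⟩ := (h3 K (K0 u).toSubfield).2 m _ v (Fintype.linearIndependent_iff.2
    fun c hc i => by
      have := tankKill hβ₀ (fun x => by rw [act c _ hβ₀, hc]; simp [vf]) (y0 i)
      simpa [tankSum, y1] using this) v0
  have ech : ∀ j i, (∑ l, B j l • v l) (J i) = if j = i then 1 else 0 := fun j i => by
    rw [← b1, Finset.sum_apply]; rfl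
  refine ⟨J, fun j => ∑ l, B j l • v l, fun j => ∑ l, B j l • E l, hm, fun j i => ?_, ech,
    Fintype.linearIndependent_iff.2 fun c hc i => ?_, fun β hβ j => act _ β hβ⟩
  · rw [Finset.sum_apply]
    exact sum_mem fun l _ => mul_mem (b0 j l) (v0 l i)
  · have := congrFun (imm (∑ j, c j • ∑ l, B j l • v l) fun x => by
      simp only [tankVfSum _ c, ← act _ _ hβ₀]
      rw [← tankSum, hc]; rfl) (J i)
    rw [Finset.sum_apply] at this
    simpa only [Pi.smul_apply, ech, smul_eq_mul, mul_ite, mul_one, mul_zero, sum_ite_eq',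
      mem_univ, if_true, Pi.zero_apply] using this

end Pool.Agent.MP_c69980_ag.H43
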