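import Pool.Agent.MP_c69980_ag.H43.Spec8

/-!
The divisorial valuations of a finite extension of a rational function field.
-/

set_option autoImplicit false

namespace Pool.Agent.MP_c69980_ag.H43

section Loc
variable {B K : Type} [CommRing B] [Field K] [Algebra B K]

/-- `V` is the localisation at `P`. -/
def noe0Loc (P : Ideal B) (V : ValuationSubring K) : Prop :=
  ∀ x, x ∈ V ↔ ∃ a b : B, b ∉ P ∧ x * algebraMap B K b = algebraMap B K a

/-- `P` has height one. -/
def noe0Ht (P : Ideal B) : Prop := P ≠ ⊥ ∧ ∀ Q : Ideal B, Q.IsPrime → Q ≤ P → Q ≠ ⊥ → Q = P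

lemma noe0_mem {P : Ideal B} [hP : P.IsPrime] {V : ValuationSubring K} (h : noe0Loc P V) (b : B) :
    algebraMap B K b ∈ V := (h _).2 ⟨b, 1, hP.one_notMem, by simp⟩

lemma noe0_val [IsFractionRing B K] {P : Ideal B} [P.IsPrime] {V : ValuationSubring K}
    (h : noe0Loc P V) (b : B) : V.valuation (algebraMap B K b) < 1 ↔ b ∈ P := by
  by_cases b0 : b = 0
  · simp [b0]
  have b1 : algebraMap B K b ≠ 0 := (map_ne_zero_iff _ (IsFractionRing.injective B K)).2 b0
  have e : (algebraMap B K b)⁻¹ ∈ V ↔ b ∉ P := by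
    refine ⟨fun h1 hb => ?_, fun hb => (h _).2 ⟨1, b, hb, by simp [b1]⟩⟩
    obtain ⟨a, s, hs, e⟩ := (h _).1 h1
    rw [inv_mul_eq_iff_eq_mul₀ b1, ← map_mul] at e
    exact hs (IsFractionRing.injective B K e ▸ P.mul_mem_right a hb)
  rw [← not_iff_not, ← e, ← V.valuation_le_one_iff, map_inv₀, not_lt,
    inv_le_one₀ (zero_lt_iff.2 ((map_ne_zero _).2 b1))]

lemma noe0_eq {P : Ideal B} {V W : ValuationSubring K} (h : noe0Loc P V)
    (h1 : ∀ b, algebraMap B K b ∈ W) (h2 : ∀ b, W.valuation (algebraMap B K b) < 1 ↔ b ∈ P) :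
    W = V := by
  have h3 : ∀ b ∉ P, W.valuation (algebraMap B K b) = 1 := fun b hb =>
    le_antisymm ((W.valuation_le_one_iff _).2 (h1 b)) (not_lt.1 fun e => hb ((h2 b).1 e))
  ext x
  refine ⟨fun hx => ?_, fun hx => ?_⟩
  · refine (V.mem_or_inv_mem x).elim id fun hi => ?_
    by_cases x0 : x = 0
    · exact x0 ▸ zero_mem V
    obtain ⟨a, s, hs, e⟩ := (h _).1 hi
    rw [inv_mul_eq_iff_eq_mul₀ x0] at e
    refine (h _).2 ⟨s, a, fun ha => ?_, e.symm⟩
    have := h3 s hs
    rw [e, map_mul, mul_comm] at this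
    exact (mul_lt_one_of_lt_of_le ((h2 a).2 ha) ((W.valuation_le_one_iff _).2 hx)).ne this
  · obtain ⟨a, s, hs, e⟩ := (h _).1 hx
    have := (W.valuation_le_one_iff _).2 (h1 a)
    rwa [← e, map_mul, h3 s hs, mul_one, W.valuation_le_one_iff] at this

lemma noe0_cen {W : ValuationSubring K} (h1 : ∀ b, algebraMap B K b ∈ W) :
    ∃ P : Ideal B, P.IsPrime ∧ ∀ b, W.valuation (algebraMap B K b) < 1 ↔ b ∈ P :=
  ⟨(IsLocalRing.maximalIdeal W).comap ((algebraMap B K).codRestrict W h1), inferInstance,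
    fun b => (W.valuation_lt_one_iff ⟨_, h1 b⟩).symm⟩

lemma noe0_dvr [IsDomain B] [IsNoetherianRing B] [IsIntegrallyClosed B] [IsFractionRing B K]
    (P : Ideal B) [P.IsPrime] (h : noe0Ht P) :
    ∃ V : ValuationSubring K, IsDiscreteValuationRing V ∧ noe0Loc P V := by
  let L := Localization.subalgebra.ofField K _ P.primeCompl_le_nonZeroDivisors
  have : IsNoetherianRing L := IsLocalization.isNoetherianRing P.primeCompl _ inferInstance
  have : IsLocalRing L := IsLocalization.AtPrime.isLocalRing L P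
  have hm : ∀ Q : Ideal L, Q ≠ ⊥ ∧ Q.IsPrime → Q = P.map (algebraMap B L) := by
    rintro Q ⟨Q0, hQ⟩
    have e := IsLocalization.map_under P.primeCompl L Q
    rw [← e, h.2 (Q.under B) inferInstance ?_ fun e0 => Q0 (by rw [← e, e0, Ideal.map_bot])]
    exact (Ideal.comap_mono (IsLocalRing.le_maximalIdeal_of_isPrime Q)).trans_eq
      (IsLocalization.AtPrime.under_maximalIdeal L P)
  have hf := IsLocalization.AtPrime.not_isField B h.1 L
  have h0 : IsLocalRing.maximalIdeal L ≠ ⊥ := IsLocalRing.isField_iff_maximalIdeal_eq.not.1 hf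
  have hc : IsIntegrallyClosed L ∧ ∃! Q : Ideal L, Q ≠ ⊥ ∧ Q.IsPrime :=
    ⟨isIntegrallyClosed_of_isLocalization L P.primeCompl P.primeCompl_le_nonZeroDivisors,
      _, ⟨h0, inferInstance⟩, fun Q hQ => (hm Q hQ).trans (hm _ ⟨h0, inferInstance⟩).symm⟩
  have hd : IsDiscreteValuationRing L := ((IsDiscreteValuationRing.TFAE L hf).out 0 3).2 hc
  refine ⟨.ofSubring L.toSubring fun x => by
    simpa [IsLocalization.IsInteger] using ValuationRing.isInteger_or_isInteger L x, hd,
    fun x => exists₂_congr fun a s => ⟨?_, ?_⟩⟩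
  · rintro ⟨hs, rfl⟩
    exact ⟨hs, inv_mul_cancel_right₀ (IsFractionRing.to_map_ne_zero_of_mem_nonZeroDivisors
      (P.primeCompl_le_nonZeroDivisors hs)) _⟩
  · rintro ⟨hs, e⟩
    exact ⟨hs, (eq_mul_inv_iff_mul_eq₀ (IsFractionRing.to_map_ne_zero_of_mem_nonZeroDivisors
      (P.primeCompl_le_nonZeroDivisors hs))).2 e⟩

end Loc

/-- A nonzero element of the kernel is transcendental over elements with independent images. -/
lemma noe0_step {F R Ω ι : Type} [Field F] [CommRing R] [IsDomain R] [CommRing Ω] [Algebra F R]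
    [Algebra F Ω] (ξ : R →ₐ[F] Ω) {v : ι → R} (hv : AlgebraicIndependent F (ξ ∘ v)) {g : R}
    (g0 : g ≠ 0) (hg : ξ g = 0) : AlgebraicIndependent F fun o : Option ι => o.elim g v := by
  refine AlgebraicIndependent.option_iff.2 ⟨hv.of_comp ξ, fun ha => ?_⟩
  refine Ideal.comap_ne_bot_of_algebraic_mem (I := RingHom.ker ξ) g0 hg ha (eq_bot_iff.2 ?_)
  rintro ⟨z, hz⟩ h
  rw [Algebra.adjoin_range_eq_range_aeval] at hz
  obtain ⟨p, rfl⟩ := hz
  have h1 : ξ (MvPolynomial.aeval v p) = 0 := h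
  rw [MvPolynomial.comp_aeval_apply] at h1
  exact Subtype.ext (by simp [algebraicIndependent_iff.1 hv p h1])

/-- Integrality over a factorial ring is checked at the prime elements. -/
lemma noe0_ufd {A K : Type} (E : Type) [CommRing A] [IsDomain A] [UniqueFactorizationMonoid A]
    [Field E] [Algebra A E] [IsFractionRing A E] [Field K] [Algebra A K] [Algebra E K]
    [IsScalarTower A E K] {x : K} (hx : IsIntegral E x)
    (h : ∀ f : A, Prime f → ∃ s : A, ¬ f ∣ s ∧ IsIntegral A (s • x)) : IsIntegral A x := by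
  have hc : ∀ i, (minpoly E x).coeff i ∈ Set.range (algebraMap A E) := fun i => by
    refine IsFractionRing.isInteger_of_isUnit_den (by_contra fun hu => ?_)
    obtain ⟨f, hf, hd⟩ := WfDvdMonoid.exists_irreducible_factor hu
      (nonZeroDivisors.coe_ne_zero _)
    obtain ⟨s, hs, hi⟩ := h f hf.prime
    have s0 : algebraMap A E s ≠ 0 :=
      (map_ne_zero_iff _ (IsFractionRing.injective A E)).2 fun e => hs (e ▸ dvd_zero f)
    have e := congrArg (Polynomial.coeff · i) (minpoly.isIntegrallyClosed_eq_field_fractions' E hi)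
    simp only [← algebraMap_smul E s x, IsIntegrallyClosed.minpoly_smul s0 hx,
      Polynomial.coeff_scaleRoots, Polynomial.coeff_map] at e
    have e2 := congrArg (· * algebraMap A E (IsFractionRing.den A ((minpoly E x).coeff i))) e
    beta_reduce at e2
    rw [mul_right_comm, IsFractionRing.num_mul_den_eq_num_iff_eq.2 rfl, ← map_pow, ← map_mul,
      ← map_mul] at e2
    have e3 := (IsFractionRing.num_den_reduced A ((minpoly E x).coeff i)).symm.dvd_of_dvd_mul_left
      ((dvd_mul_left _ _).trans (IsFractionRing.injective A E e2).symm.dvd)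
    exact hs (hf.prime.dvd_of_dvd_pow (hd.trans e3))
  obtain ⟨q, h1, -, h2⟩ := Polynomial.lifts_and_natDegree_eq_and_monic
    ((Polynomial.lifts_iff_coeff_lifts _).2 hc) (minpoly.monic hx)
  refine ⟨q, h2, ?_⟩
  rw [← Polynomial.aeval_def, ← Polynomial.aeval_map_algebraMap E, h1, minpoly.aeval]

section Ov
variable (A : Type) {B K : Type} [CommRing A] [CommRing B] [Field K] [Algebra A B] [Algebra B K]
  [Algebra A K] [IsScalarTower A B K]

/-- `V` lies over a prime element. -/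
def noe0Ov (V : ValuationSubring K) : Prop := (∀ a, algebraMap A K a ∈ V) ∧
  ∃ f : A, Prime f ∧ ∀ a, V.valuation (algebraMap A K a) < 1 ↔ f ∣ a

variable {A} [IsDomain A] [UniqueFactorizationMonoid A] [IsDomain B] [Algebra.IsIntegral A B]

lemma noe0_over {P : Ideal B} (hP : P.IsPrime) (h0 : P ≠ ⊥) {f : A} (hf : Prime f)
    (h : ∀ a, algebraMap A B a ∈ P → f ∣ a) (a : A) (ha : f ∣ a) : algebraMap A B a ∈ P := by
  obtain ⟨g, h1, h2⟩ := (hP.comap (algebraMap A B)).exists_mem_prime_of_ne_bot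
    fun e => h0 (Ideal.eq_bot_of_comap_eq_bot e)
  exact Ideal.mem_of_dvd (P.comap (algebraMap A B))
    ((hf.associated_of_dvd h2 (h g h1)).symm.dvd.trans ha) h1

variable [FaithfulSMul A B]

lemma noe0_ht {P : Ideal B} {f : A} (hf : Prime f) (h : ∀ a, algebraMap A B a ∈ P ↔ f ∣ a) :
    noe0Ht P := by
  refine ⟨fun e => hf.ne_zero ?_, fun Q hQ hle h0 => eq_of_le_of_not_lt hle fun hlt => ?_⟩
  · have := (h f).2 dvd_rfl
    rwa [e, Ideal.mem_bot, FaithfulSMul.algebraMap_eq_zero_iff] at this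
  · exact (Ideal.IsIntegral.comap_lt_comap (R := A) hlt).not_ge fun a ha =>
      noe0_over hQ h0 hf (fun a ha => (h a).1 (hle ha)) a ((h a).1 ha)

variable [IsNoetherianRing B] [IsIntegrallyClosed B] [IsFractionRing B K]

lemma noe0_key (K : Type) [Field K] [Algebra B K] [Algebra A K] [IsScalarTower A B K]
    [IsFractionRing B K] {P : Ideal B} (hP : P.IsPrime) {f : A} (hf : Prime f)
    (h : ∀ a, algebraMap A B a ∈ P ↔ f ∣ a) :
    ∃ V : ValuationSubring K, noe0Ov A V ∧ noe0Loc P V := by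
  obtain ⟨V, -, hV⟩ := noe0_dvr (K := K) P (noe0_ht hf h)
  refine ⟨V, ⟨fun a => ?_, f, hf, fun a => ?_⟩, hV⟩
  · rw [IsScalarTower.algebraMap_apply A B K]
    exact noe0_mem hV _
  · rw [IsScalarTower.algebraMap_apply A B K, noe0_val hV, h]

variable (B) in
lemma noe0_ov {V : ValuationSubring K} (h : noe0Ov A V) :
    IsDiscreteValuationRing V ∧ ∃ P : Ideal B, P.IsPrime ∧ noe0Ht P ∧ noe0Loc P V := by
  obtain ⟨h1, f, hf, h2⟩ := h
  have h3 : ∀ b, algebraMap B K b ∈ V := fun b => by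
    let _ : Algebra A V := ((algebraMap A K).codRestrict V h1).toAlgebra
    have : IsScalarTower A V K := .of_algebraMap_eq fun _ => rfl
    obtain ⟨z, hz⟩ := IsIntegrallyClosed.isIntegral_iff.1
      (((Algebra.IsIntegral.isIntegral (R := A) b).algebraMap (B := K)).tower_top (A := V))
    exact hz ▸ z.2
  obtain ⟨P, hP, h4⟩ := noe0_cen h3
  have ht : noe0Ht P := noe0_ht hf fun a => by
    rw [← h4, ← IsScalarTower.algebraMap_apply, h2]
  obtain ⟨W, h5, h6⟩ := noe0_dvr (K := K) P ht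
  obtain rfl := noe0_eq h6 h3 h4
  exact ⟨h5, P, hP, ht, h6⟩

variable (B) in
include B in
lemma noe0_fin (x : K) : {V | noe0Ov A V ∧ x ∉ V}.Finite := by
  obtain ⟨⟨a, b, hb⟩, e⟩ := IsLocalization.surj (nonZeroDivisors B) x
  refine (((Ideal.span {b}).finite_minimalPrimes_of_isNoetherianRing B).biUnion
    (t := fun P => {V : ValuationSubring K | noe0Loc P V}) fun P _ =>
      Set.Subsingleton.finite fun V hV W hW => ?_).subset ?_
  · ext z
    exact (hV z).trans (hW z).symm
  · rintro V ⟨h, hx⟩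
    obtain ⟨-, P, hP, ht, hl⟩ := noe0_ov B h
    refine Set.mem_biUnion (x := P) ⟨⟨hP, (Ideal.span_singleton_le_iff_mem _).2
      (by_contra fun hn => hx ((hl x).2 ⟨a, b, hn, e⟩))⟩, fun Q hQ hle => ?_⟩ hl
    refine (ht.2 Q hQ.1 hle fun e0 => nonZeroDivisors.ne_zero hb ?_).ge
    have := (Ideal.span_singleton_le_iff_mem _).1 hQ.2
    rwa [e0] at this

variable (B) in
include B in
lemma noe0_int {x : K} (h : ∀ V, noe0Ov A V → x ∈ V) {f : A} (hf : Prime f) :
    ∃ s : A, ¬ f ∣ s ∧ IsIntegral A (s • x) := by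
  by_contra hn
  let I : Ideal B := (1 : Submodule B K).comap (LinearMap.toSpanSingleton B K x)
  have hI : ∀ b, b ∈ I ↔ ∃ c, algebraMap B K c = x * algebraMap B K b := fun b => by
    simp only [I, Submodule.mem_comap, LinearMap.toSpanSingleton_apply, Submodule.mem_one,
      Algebra.smul_def, mul_comm]
  have : (Ideal.span {f}).IsPrime := (Ideal.span_singleton_prime hf.ne_zero).2 hf
  obtain ⟨P, hP, h1, h2⟩ := I.exists_le_prime_disjoint
    ((Ideal.span {f}).primeCompl.map (algebraMap A B)) (Set.disjoint_left.2 (by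
      rintro _ hb ⟨s, hs, rfl⟩
      obtain ⟨c, hc⟩ := (hI _).1 hb
      refine hn ⟨s, fun e => hs (Ideal.mem_span_singleton.2 e), ?_⟩
      rw [Algebra.smul_def, mul_comm, IsScalarTower.algebraMap_apply A B K, ← hc]
      exact (Algebra.IsIntegral.isIntegral c).algebraMap))
  have h3 : ∀ a, algebraMap A B a ∈ P → f ∣ a := fun a ha => by_contra fun e =>
    Set.disjoint_left.1 h2 ha ⟨a, fun e' => e (Ideal.mem_span_singleton.1 e'), rfl⟩
  have h0 : P ≠ ⊥ := fun e0 => by
    obtain ⟨⟨a, b, hb⟩, e⟩ := IsLocalization.surj (nonZeroDivisors B) x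
    have := h1 ((hI b).2 ⟨a, e.symm⟩)
    rw [e0] at this
    exact nonZeroDivisors.ne_zero hb this
  obtain ⟨V, h4, h5⟩ := noe0_key K hP hf fun a => ⟨h3 a, noe0_over hP h0 hf h3 a⟩
  obtain ⟨a, b, hb, e⟩ := (h5 x).1 (h V h4)
  exact hb (h1 ((hI b).2 ⟨a, e.symm⟩))

lemma noe0_cod {F ι : Type} [Field F] [Algebra F B] {f₀ : A} (hf₀ : Prime f₀)
    (hw : ∀ w : Option (Option ι) → B, ¬ AlgebraicIndependent F w) (I : Set B)
    (h : ∀ V : ValuationSubring K, noe0Ov A V →
      ∃ x ∈ Ideal.span I, V.valuation (algebraMap B K x) = 1)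
    {Ω : Type} [Field Ω] [Algebra F Ω] (ξ : B →ₐ[F] Ω) (hI : ∀ x ∈ I, ξ x = 0) (v : ι → B) :
    ¬ AlgebraicIndependent F (ξ ∘ v) := by
  intro hv
  have hP : (RingHom.ker ξ).IsPrime := RingHom.ker_isPrime ξ
  obtain ⟨P, f, h1, h2, hf, h3⟩ : ∃ (P : Ideal B) (f : A), P.IsPrime ∧ RingHom.ker ξ ≤ P ∧
      Prime f ∧ P.comap (algebraMap A B) = Ideal.span {f} := by
    by_cases h0 : RingHom.ker ξ = ⊥
    · have : (Ideal.span {f₀}).IsPrime := (Ideal.span_singleton_prime hf₀.ne_zero).2 hf₀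
      obtain ⟨P, h1, h2⟩ := Ideal.exists_ideal_over_prime_of_isIntegral_of_isDomain (S := B)
        (Ideal.span {f₀}) (by
          rw [(RingHom.injective_iff_ker_eq_bot _).1 (FaithfulSMul.algebraMap_injective A B)]
          exact bot_le)
      exact ⟨P, f₀, h1, h0 ▸ bot_le, hf₀, h2⟩
    obtain ⟨f, h1, hf⟩ := (hP.comap (algebraMap A B)).exists_mem_prime_of_ne_bot
      fun e => h0 (Ideal.eq_bot_of_comap_eq_bot e)
    refine ⟨_, f, hP, le_rfl, hf,
      (eq_of_le_of_not_lt ((Ideal.span_singleton_le_iff_mem _).2 h1) fun hlt => ?_).symm⟩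
    have : (Ideal.span {f}).IsPrime := (Ideal.span_singleton_prime hf.ne_zero).2 hf
    obtain ⟨Q, h2, hQ, h3⟩ := Ideal.exists_ideal_lt_liesOver_of_lt
      (q := (RingHom.ker ξ).under A) (RingHom.ker ξ) hlt
    obtain ⟨g, hg, hgQ⟩ := SetLike.exists_of_lt h2
    have h4 := noe0_step (Ideal.Quotient.liftₐ Q ξ fun a ha => h2.le ha)
      (v := Ideal.Quotient.mk Q ∘ v) hv (mt Ideal.Quotient.eq_zero_iff_mem.1 hgQ) hg
    refine hw _ (noe0_step (Ideal.Quotient.mkₐ F Q) (v := fun o : Option ι => o.elim g v)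
      (g := algebraMap A B f) ?_ ?_ (Ideal.Quotient.eq_zero_iff_mem.2 ?_))
    · convert h4 using 1
      funext o
      cases o <;> rfl
    · exact (FaithfulSMul.algebraMap_eq_zero_iff A B).not.2 hf.ne_zero
    · exact (Ideal.mem_of_liesOver Q (Ideal.span {f}) f).1 (Ideal.mem_span_singleton_self f)
  obtain ⟨V, h4, h5⟩ := noe0_key K h1 hf fun a => by
    rw [← Ideal.mem_comap, h3, Ideal.mem_span_singleton]
  obtain ⟨x, h6, h7⟩ := h V h4
  exact ((noe0_val h5 x).2 (h2 (Ideal.span_le.2 (fun x hx => hI x hx) h6))).ne h7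

end Ov

open MvPolynomial in
lemma noe0_var {F : Type} [Field F] {r : ℕ} {f : MvPolynomial (Fin (r + 1)) F} (hf : Prime f) :
    ∃ i : Fin (r + 1), ∀ P : MvPolynomial (Fin r) F, P ≠ 0 → ¬ f ∣ rename i.succAbove P := by
  obtain ⟨i, hi⟩ : f.vars.Nonempty := Finset.nonempty_iff_ne_empty.2 fun e => by
    have e1 := vars_eq_empty_iff_eq_C.1 e
    refine hf.not_isUnit (e1 ▸ (IsUnit.mk0 _ fun e2 => hf.ne_zero ?_).map C)
    rw [e1, e2, C_0]
  refine ⟨i, fun P hP ⟨q, hq⟩ => ?_⟩
  have h0 : f * q ≠ 0 := hq ▸ fun e => hP (rename_injective _ Fin.succAbove_right_injective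
    (e.trans (map_zero _).symm))
  have h1 : i ∈ (rename i.succAbove P).vars := by
    rw [hq, mem_vars_iff_degreeOf_ne_zero, degreeOf_mul_eq hf.ne_zero (right_ne_zero_of_mul h0)]
    have := mem_vars_iff_degreeOf_ne_zero.1 hi
    omega
  obtain ⟨j, -, hj⟩ := mem_vars_rename _ _ h1
  exact Fin.succAbove_ne i j hj

open MvPolynomial in
open scoped IntermediateField.algebraAdjoinAdjoin in
theorem sNoe0 : SNoe0 := by
  intro F K _ _ _ _ r y hy hfd
  let A := Algebra.adjoin F (Set.range y)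
  let E := IntermediateField.adjoin F (Set.range y)
  let e : MvPolynomial (Fin (r + 1)) F ≃ₐ[F] A := hy.aevalEquiv
  have he : ∀ P, algebraMap A K (e P) = aeval y P := fun _ => rfl
  have : UniqueFactorizationMonoid A := e.toMulEquiv.uniqueFactorizationMonoid inferInstance
  have : IsNoetherianRing A := isNoetherianRing_of_ringEquiv _ e.toRingEquiv
  have : CharZero E := algebraRat.charZero _
  have hm : Module.Finite A (IC F y) := IsIntegralClosure.finite A E K _
  have : IsNoetherianRing (IC F y) := IsIntegralClosure.isNoetherianRing A E K _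
  have : IsFractionRing (IC F y) K := integralClosure.isFractionRing_of_finite_extension E K
  have : IsIntegrallyClosed (IC F y) := integralClosure.isIntegrallyClosedOfFiniteExtension E
  have hD : ∀ V, Dv F y V ↔ noe0Ov A V := fun V => by
    refine and_congr (e.surjective.forall (p := fun a => algebraMap A K a ∈ V)).symm
      ⟨?_, ?_⟩
    · rintro ⟨f, hf, h⟩
      exact ⟨e f, (MulEquiv.prime_iff e).2 hf, e.surjective.forall.2 fun P => by
        rw [he, h, map_dvd_iff]⟩
    · rintro ⟨f, hf, h⟩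
      obtain ⟨f, rfl⟩ := e.surjective f
      exact ⟨f, (MulEquiv.prime_iff e).1 hf, fun P => by rw [← he, h, map_dvd_iff]⟩
  refine ⟨hy, hm, fun V h => (noe0_ov (IC F y) ((hD V).1 h)).1, fun x => ?_, fun x h => ?_,
    fun V h x hx => ?_, fun V h => ?_, fun I h Ω _ _ ξ hI v => ?_⟩
  · simp only [hD]
    exact noe0_fin (IC F y) x
  · exact noe0_ufd E (Algebra.IsIntegral.isIntegral x) fun f hf =>
      noe0_int (IC F y) (fun V hV => h V ((hD V).2 hV)) hf
  · obtain ⟨-, P, hP, -, hl⟩ := noe0_ov (IC F y) ((hD V).1 h)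
    obtain ⟨a, b, hb, e⟩ := (hl x).1 hx
    exact ⟨a, a.2, b, b.2, le_antisymm ((V.valuation_le_one_iff _).2 (noe0_mem hl b))
      (not_lt.1 fun h1 => hb ((noe0_val hl b).1 h1)), e⟩
  · obtain ⟨h1, f, hf, h2⟩ := h
    obtain ⟨i, hi⟩ := noe0_var hf
    refine ⟨i, fun P hP => ?_⟩
    rw [← aeval_rename]
    exact le_antisymm ((V.valuation_le_one_iff _).2 (h1 _))
      (not_lt.1 fun h3 => hi P hP ((h2 _).1 h3))
  · refine noe0_cod (A := A) (K := K) ((MulEquiv.prime_iff e).2 (X_prime (i := 0))) (fun w hw => ?_)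
      I (fun V hV => h V ((hD V).2 hV)) ξ hI v
    have hb : IsTranscendenceBasis F y := hy.isTranscendenceBasis_iff_isAlgebraic.2
      (IsFractionRing.comap_isAlgebraic_iff.2 (inferInstance : Algebra.IsAlgebraic E K))
    have h1 := (hw.map' (f := (IC F y).val.restrictScalars F)
      Subtype.val_injective).lift_cardinalMk_le_trdeg
    rw [← hb.lift_cardinalMk_eq_trdeg] at h1
    simp only [Cardinal.mk_fintype, Fintype.card_option, Fintype.card_fin, Cardinal.lift_natCast,
      Nat.cast_le] at h1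
    omega

end Pool.Agent.MP_c69980_ag.H43
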